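import Mathlib

/-!
# Equal degree in the polynomial ring over an infinite field is first-order definable

There are one existential-universal formula and one universal-existential formula of the
language of rings, in three free variables, which define the relation `deg f = deg g` in
the ring `K[t]`, with `t` as the only parameter, for every infinite field `K` at once.

The idea is to compare `f` and `g` near infinity by substituting `1 / t`: for nonzero `f`
and `g` we have `deg f = deg g` exactly when there are polynomials `p`, `q` not divisible by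
`t` with `p(a) g(1/a) = q(a) f(1/a)` for every nonzero constant `a`.
-/

universe u

open FirstOrder FirstOrder.Language FirstOrder.Ring Polynomial

namespace Pool.Agent.Results.MP_d395f7_lc.DegreeDefinable

/-! ### The algebraic core -/

section Algebra

variable {K : Type u} [Field K]

/-- `p(a) g(1/a) = q(a) f(1/a)` for all nonzero constants `a`. -/
def Twin (f g p q : K[X]) : Prop :=
  ∀ a b : K, a * b = 1 → p.eval a * g.eval b = q.eval a * f.eval b

lemma eval_inv (f : K[X]) {a b : K} (h : a * b = 1) :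
    f.reverse.eval a = f.eval b * a ^ f.natDegree := by
  have hb : b * a = 1 := by rw [mul_comm]; exact h
  let _ : Invertible b := ⟨a, h, hb⟩
  have h1 := Polynomial.eval₂_reverse_mul_pow (RingHom.id K) b f
  have h2 : (⅟b : K) = a := rfl
  rw [h2] at h1
  simp only [Polynomial.eval₂_id] at h1
  rw [← h1, mul_assoc, ← mul_pow, hb, one_pow, mul_one]

lemma twin_identity [Infinite K] {f g p q : K[X]} (h : Twin f g p q) :
    p * g.reverse * X ^ f.natDegree = q * f.reverse * X ^ g.natDegree := by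
  have key : ∀ a : K, a ≠ 0 → (p * g.reverse * X ^ f.natDegree
      - q * f.reverse * X ^ g.natDegree).eval a = 0 := by
    intro a ha
    have hab : a * a⁻¹ = 1 := mul_inv_cancel₀ ha
    have h1 := h a a⁻¹ hab
    simp only [eval_sub, eval_mul, eval_pow, eval_X, eval_inv g hab, eval_inv f hab]
    linear_combination (a ^ f.natDegree * a ^ g.natDegree) * h1
  have hz : (p * g.reverse * X ^ f.natDegree - q * f.reverse * X ^ g.natDegree) = 0 := by
    by_contra hne
    have hfin := (Polynomial.finite_setOfPred_isRoot hne)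
    have hsub : ({0}ᶜ : Set K) ⊆ {x | IsRoot (p * g.reverse * X ^ f.natDegree
      - q * f.reverse * X ^ g.natDegree) x} := fun a ha => key a ha
    have hfin2 : ({0}ᶜ : Set K).Finite := hfin.subset hsub
    exact (Set.finite_singleton (0 : K)).infinite_compl hfin2
  exact sub_eq_zero.mp hz

lemma coeff_zero_reverse_ne {f : K[X]} (hf : f ≠ 0) : f.reverse.eval 0 ≠ 0 := by
  rw [← coeff_zero_eq_eval_zero, coeff_zero_reverse]
  exact leadingCoeff_ne_zero.mpr hf

lemma natDegree_le_of_twin [Infinite K] {f g p q : K[X]} (hf : f ≠ 0)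
    (hq : q.eval 0 ≠ 0) (h : Twin f g p q) : f.natDegree ≤ g.natDegree := by
  by_contra hlt
  push Not at hlt
  have h1 := twin_identity h
  obtain ⟨k, hk⟩ := Nat.exists_eq_add_of_lt hlt
  rw [hk] at h1
  have h2 : (p * g.reverse * X ^ (k + 1)) * X ^ g.natDegree
      = (q * f.reverse) * X ^ g.natDegree := by
    rw [← h1]; ring
  have h3 := mul_right_cancel₀ (pow_ne_zero _ X_ne_zero) h2
  have h4 := congrArg (eval 0) h3
  simp at h4
  rcases h4 with h4 | h4
  · exact hq h4
  · exact coeff_zero_reverse_ne hf (by simpa using h4)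

lemma natDegree_lt_of_twin [Infinite K] {f g p q : K[X]} (hf : f ≠ 0)
    (hp : p.eval 0 = 0) (hq : q.eval 0 ≠ 0) (h : Twin f g p q) :
    f.natDegree < g.natDegree := by
  by_contra hlt
  push Not at hlt
  have h1 := twin_identity h
  obtain ⟨k, hk⟩ := Nat.exists_eq_add_of_le hlt
  rw [hk] at h1
  have h2 : (p * g.reverse * X ^ k) * X ^ g.natDegree
      = (q * f.reverse) * X ^ g.natDegree := by
    rw [← h1]; ring
  have h3 := mul_right_cancel₀ (pow_ne_zero _ X_ne_zero) h2
  have h4 := congrArg (eval 0) h3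
  simp [hp] at h4
  rcases h4 with h4 | h4
  · exact hq h4
  · exact coeff_zero_reverse_ne hf (by simpa using h4)

lemma Twin.symm {f g p q : K[X]} (h : Twin f g p q) : Twin g f q p :=
  fun a b hab => (h a b hab).symm

/-- The Sigma characterisation of `deg f = deg g`. -/
lemma degree_eq_iff [Infinite K] (f g : K[X]) :
    f.degree = g.degree ↔
      (f = 0 ∧ g = 0) ∨ (f ≠ 0 ∧ g ≠ 0 ∧ ∃ p q : K[X],
        Twin f g p q ∧ (∀ r, X * r ≠ p) ∧ (∀ r, X * r ≠ q)) := by
  have hX : ∀ p : K[X], (∀ r, X * r ≠ p) ↔ p.eval 0 ≠ 0 := by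
    intro p
    rw [← coeff_zero_eq_eval_zero, ne_eq, ← X_dvd_iff]
    constructor
    · rintro h ⟨r, hr⟩; exact h r hr.symm
    · intro h r hr; exact h ⟨r, hr.symm⟩
  constructor
  · intro h
    by_cases hf : f = 0
    · left; subst hf; rw [degree_zero] at h; exact ⟨rfl, degree_eq_bot.mp h.symm⟩
    · right
      have hg : g ≠ 0 := by
        rintro rfl; rw [degree_zero] at h; exact hf (degree_eq_bot.mp h)
      refine ⟨hf, hg, f.reverse, g.reverse, ?_, ?_, ?_⟩
      · intro a b hab
        rw [eval_inv f hab, eval_inv g hab, natDegree_eq_of_degree_eq h]; ring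
      · rw [hX]; exact coeff_zero_reverse_ne hf
      · rw [hX]; exact coeff_zero_reverse_ne hg
  · rintro (⟨rfl, rfl⟩ | ⟨hf, hg, p, q, h, hp, hq⟩)
    · rfl
    · rw [hX] at hp hq
      rw [degree_eq_natDegree hf, degree_eq_natDegree hg]
      have h1 := natDegree_le_of_twin hf hq h
      have h2 := natDegree_le_of_twin hg hp h.symm
      rw [le_antisymm h1 h2]

/-- Existence of a witness for `deg f < deg g`. -/
lemma exists_twin_of_degree_lt {f g : K[X]} (h : f.degree < g.degree) :
    ∃ s q : K[X], Twin f g (X * s) q ∧ (∀ r, X * r ≠ q) := by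
  have hg : g ≠ 0 := by
    rintro rfl; rw [degree_zero] at h; exact not_lt_bot h
  have hq : ∀ r, X * r ≠ g.reverse := by
    intro r hr
    apply coeff_zero_reverse_ne hg
    rw [← hr]; simp
  by_cases hf : f = 0
  · subst hf
    exact ⟨0, g.reverse, fun a b _ => by simp, hq⟩
  · have h' : f.natDegree < g.natDegree := by
      rw [degree_eq_natDegree hf, degree_eq_natDegree hg] at h
      exact_mod_cast h
    obtain ⟨k, hk⟩ := Nat.exists_eq_add_of_lt h'
    refine ⟨X ^ k * f.reverse, g.reverse, ?_, hq⟩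
    intro a b hab
    simp only [eval_mul, eval_X, eval_pow, eval_inv f hab, eval_inv g hab]
    rw [hk]; ring

/-- The Sigma characterisation of `deg f ≠ deg g`. -/
lemma degree_ne_iff [Infinite K] (f g : K[X]) :
    f.degree ≠ g.degree ↔
      (f ≠ 0 ∨ g ≠ 0) ∧ ∃ p q s : K[X], Twin f g p q ∧
        ((p = X * s ∧ ∀ r, X * r ≠ q) ∨ (q = X * s ∧ ∀ r, X * r ≠ p)) := by
  have hX : ∀ p : K[X], (∀ r, X * r ≠ p) ↔ p.eval 0 ≠ 0 := by
    intro p
    rw [← coeff_zero_eq_eval_zero, ne_eq, ← X_dvd_iff]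
    constructor
    · rintro h ⟨r, hr⟩; exact h r hr.symm
    · intro h r hr; exact h ⟨r, hr.symm⟩
  have aux : ∀ f g p q s : K[X], (f ≠ 0 ∨ g ≠ 0) → Twin f g p q → p = X * s →
      (∀ r, X * r ≠ q) → f.degree ≠ g.degree := by
    intro f g p q s hfg h hp hq he
    have hf : f ≠ 0 := by
      rintro rfl
      rw [degree_zero] at he
      have hg0 : g = 0 := degree_eq_bot.mp he.symm
      simp [hg0] at hfg
    have hp0 : p.eval 0 = 0 := by rw [hp]; simp
    have h1 := natDegree_lt_of_twin hf hp0 ((hX q).mp hq) h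
    rw [natDegree_eq_of_degree_eq he] at h1
    exact lt_irrefl _ h1
  constructor
  · intro h
    refine ⟨?_, ?_⟩
    · by_contra hc
      push Not at hc
      exact h (by rw [hc.1, hc.2])
    · rcases lt_or_gt_of_ne h with h | h
      · obtain ⟨s, q, h1, h2⟩ := exists_twin_of_degree_lt h
        exact ⟨X * s, q, s, h1, Or.inl ⟨rfl, h2⟩⟩
      · obtain ⟨s, q, h1, h2⟩ := exists_twin_of_degree_lt h
        exact ⟨q, X * s, s, h1.symm, Or.inr ⟨rfl, h2⟩⟩
  · rintro ⟨hfg, p, q, s, h, ⟨hp, hq⟩ | ⟨hq, hp⟩⟩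
    · exact aux f g p q s hfg h hp hq
    · exact (aux g f q p s hfg.symm h.symm hq hp).symm

/-- The matrix of the universal ring-theoretic description of `Twin`. -/
def TwinMatrix {R : Type u} [CommRing R] (t f g p q : R) (w : Fin 11 → R) : Prop :=
  w 0 * w 1 = 1 → w 2 * (w 2 * w 3 + -1) = 0 → (t + -w 1) * w 4 = g + -w 2 →
  w 5 * (w 5 * w 6 + -1) = 0 → (t + -w 1) * w 7 = f + -w 5 → w 8 * w 9 = 1 →
  ¬ (t + -w 0) * w 10 = p * w 2 + -(q * w 5) + -w 8

lemma exists_C_of_mul_eq_one {a b : K[X]} (h : a * b = 1) : ∃ c : K, c ≠ 0 ∧ a = C c := by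
  have : IsUnit a := IsUnit.of_mul_eq_one _ h
  obtain ⟨c, hc, rfl⟩ := Polynomial.isUnit_iff.mp this
  exact ⟨c, hc.ne_zero, rfl⟩

lemma exists_C_of_quasi {a b : K[X]} (h : a * (a * b + -1) = 0) : ∃ c : K, a = C c := by
  rcases mul_eq_zero.mp h with h | h
  · exact ⟨0, by simpa using h⟩
  · have : a * b = 1 := by linear_combination h
    obtain ⟨c, -, hc⟩ := exists_C_of_mul_eq_one this
    exact ⟨c, hc⟩

lemma quasi_C (c : K) : C c * (C c * C c⁻¹ + -1 : K[X]) = 0 := by
  by_cases h : c = 0
  · simp [h]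
  · rw [← C_mul, mul_inv_cancel₀ h]; simp

/-- `Twin` is universally definable. -/
lemma twin_iff (f g p q : K[X]) : Twin f g p q ↔ ∀ w : Fin 11 → K[X], TwinMatrix X f g p q w := by
  constructor
  · intro h w h1 h2 h3 h4 h5 h6 h7
    obtain ⟨a, ha, hwa⟩ := exists_C_of_mul_eq_one h1
    obtain ⟨b, hb, hwb⟩ := exists_C_of_mul_eq_one ((mul_comm _ _).trans h1)
    obtain ⟨c, hc, hwc⟩ := exists_C_of_mul_eq_one h6
    obtain ⟨G, hG⟩ := exists_C_of_quasi h2
    obtain ⟨F, hF⟩ := exists_C_of_quasi h4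
    rw [hwa, hwb, ← C_mul] at h1
    have hab : a * b = 1 := by
      have := congrArg (eval 0) h1; simpa using this
    have hGe : g.eval b = G := by
      have := congrArg (eval b) h3
      rw [hwb, hG] at this
      simp at this
      linear_combination -this
    have hFe : f.eval b = F := by
      have := congrArg (eval b) h5
      rw [hwb, hF] at this
      simp at this
      linear_combination -this
    have h8 := congrArg (eval a) h7
    rw [hwa, hG, hF, hwc] at h8
    simp at h8
    have h9 := h a b hab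
    rw [hGe, hFe] at h9
    apply hc
    linear_combination h9 + h8
  · intro h a b hab
    by_contra hne
    have hroot : ∀ (P : K[X]) (c : K), P.eval c = 0 → ∃ r, (X + -C c) * r = P := by
      intro P c hP
      obtain ⟨r, hr⟩ := Polynomial.dvd_iff_isRoot.mpr (show IsRoot P c from hP)
      exact ⟨r, by rw [hr]; ring⟩
    obtain ⟨r1, hr1⟩ := hroot (g + -C (g.eval b)) b (by simp)
    obtain ⟨r2, hr2⟩ := hroot (f + -C (f.eval b)) b (by simp)
    have hc : p.eval a * g.eval b - q.eval a * f.eval b ≠ 0 := sub_ne_zero.mpr hne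
    obtain ⟨r3, hr3⟩ := hroot (p * C (g.eval b) + -(q * C (f.eval b))
      + -C (p.eval a * g.eval b - q.eval a * f.eval b)) a (by simp; ring)
    refine h ![C a, C b, C (g.eval b), C (g.eval b)⁻¹, r1, C (f.eval b), C (f.eval b)⁻¹, r2,
      C (p.eval a * g.eval b - q.eval a * f.eval b),
      C (p.eval a * g.eval b - q.eval a * f.eval b)⁻¹, r3] ?_ ?_ ?_ ?_ ?_ ?_ ?_
    · show C a * C b = 1
      rw [← C_mul, hab, C_1]
    · exact quasi_C _
    · exact hr1
    · exact quasi_C _
    · exact hr2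
    · show C _ * C _ = 1
      rw [← C_mul, mul_inv_cancel₀ hc, C_1]
    · exact hr3

end Algebra

/-! ### The formulas -/

/-- Three free variables, three outer and eleven inner quantified variables. -/
abbrev Vars : Type := (Fin 3 ⊕ Fin 3) ⊕ Fin 11

/-- Terms. -/
abbrev Tm : Type := Language.ring.Term Vars

/-- Formulas. -/
abbrev Fml : Type := Language.ring.Formula Vars

/-- free variable -/
def fv (i : Fin 3) : Tm := Term.var (Sum.inl (Sum.inl i))

/-- outer quantified variable -/
def ov (i : Fin 3) : Tm := Term.var (Sum.inl (Sum.inr i))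

/-- inner quantified variable -/
def iv (i : Fin 11) : Tm := Term.var (Sum.inr i)

/-- an equation -/
def eqn (s t : Tm) : Fml := Term.equal s t

lemma isQF_eqn (s t : Tm) : BoundedFormula.IsQF (eqn s t) :=
  (BoundedFormula.IsAtomic.equal _ _).isQF

lemma realize_eqn {R : Type u} [CommRing R] [CompatibleRing R] (v : Vars → R) (s t : Tm) :
    (eqn s t).Realize v ↔ s.realize v = t.realize v := by
  simp [eqn]

/-- The quantifier-free formula `TwinMatrix`. -/
def twinF (p q : Tm) : Fml :=
  (eqn (iv 0 * iv 1) 1).imp <| (eqn (iv 2 * (iv 2 * iv 3 + -1)) 0).imp <|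
  (eqn ((fv 2 + -iv 1) * iv 4) (fv 1 + -iv 2)).imp <|
  (eqn (iv 5 * (iv 5 * iv 6 + -1)) 0).imp <|
  (eqn ((fv 2 + -iv 1) * iv 7) (fv 0 + -iv 5)).imp <|
  (eqn (iv 8 * iv 9) 1).imp <|
  (eqn ((fv 2 + -iv 0) * iv 10) (p * iv 2 + -(q * iv 5) + -iv 8)).not

lemma isQF_twinF (p q : Tm) : BoundedFormula.IsQF (twinF p q) :=
  (isQF_eqn _ _).imp <| (isQF_eqn _ _).imp <| (isQF_eqn _ _).imp <| (isQF_eqn _ _).imp <|
  (isQF_eqn _ _).imp <| (isQF_eqn _ _).imp <| (isQF_eqn _ _).not

/-- The assignment with the given values of the variables. -/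
def asg {R : Type u} (x : Fin 3 → R) (u : Fin 3 → R) (w : Fin 11 → R) : Vars → R :=
  Sum.elim (Sum.elim x u) w

lemma realize_twinF {R : Type u} [CommRing R] [CompatibleRing R] (x u : Fin 3 → R)
    (w : Fin 11 → R) (p q : Tm) :
    (twinF p q).Realize (asg x u w) ↔
      TwinMatrix (x 2) (x 0) (x 1) (p.realize (asg x u w)) (q.realize (asg x u w)) w := by
  simp only [twinF, TwinMatrix, Formula.realize_imp, Formula.realize_not, realize_eqn,
    realize_mul, realize_add, realize_neg, realize_one, realize_zero]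
  rfl

/-- The matrix of the existential-universal definition of `deg f = deg g`. -/
def sigmaM : Fml :=
  (eqn (fv 0) 0 ⊓ eqn (fv 1) 0) ⊔
    ((eqn (fv 0) 0).not ⊓ ((eqn (fv 1) 0).not ⊓ (twinF (ov 0) (ov 1) ⊓
      ((eqn (fv 2 * iv 0) (ov 0)).not ⊓ (eqn (fv 2 * iv 0) (ov 1)).not))))

/-- The matrix of the universal-existential definition of `deg f = deg g`. -/
def piM : Fml :=
  (((eqn (fv 0) 0).not ⊔ (eqn (fv 1) 0).not) ⊓ (twinF (ov 0) (ov 1) ⊓
    ((eqn (ov 0) (fv 2 * ov 2) ⊓ (eqn (fv 2 * iv 0) (ov 1)).not) ⊔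
      (eqn (ov 1) (fv 2 * ov 2) ⊓ (eqn (fv 2 * iv 0) (ov 0)).not)))).not

lemma isQF_sigmaM : BoundedFormula.IsQF sigmaM :=
  ((isQF_eqn _ _).inf (isQF_eqn _ _)).sup
    ((isQF_eqn _ _).not.inf ((isQF_eqn _ _).not.inf ((isQF_twinF _ _).inf
      ((isQF_eqn _ _).not.inf (isQF_eqn _ _).not))))

lemma isQF_piM : BoundedFormula.IsQF piM :=
  (((isQF_eqn _ _).not.sup (isQF_eqn _ _).not).inf ((isQF_twinF _ _).inf
    (((isQF_eqn _ _).inf (isQF_eqn _ _).not).sup
      ((isQF_eqn _ _).inf (isQF_eqn _ _).not)))).not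

lemma realize_sigmaM {R : Type u} [CommRing R] [CompatibleRing R] (x u : Fin 3 → R)
    (w : Fin 11 → R) : sigmaM.Realize (asg x u w) ↔
      (x 0 = 0 ∧ x 1 = 0) ∨ (x 0 ≠ 0 ∧ x 1 ≠ 0 ∧ TwinMatrix (x 2) (x 0) (x 1) (u 0) (u 1) w ∧
        x 2 * w 0 ≠ u 0 ∧ x 2 * w 0 ≠ u 1) := by
  simp only [sigmaM, Formula.realize_sup, Formula.realize_inf, Formula.realize_not,
    realize_twinF, realize_eqn, realize_mul, realize_zero]
  rfl

lemma realize_piM {R : Type u} [CommRing R] [CompatibleRing R] (x u : Fin 3 → R)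
    (w : Fin 11 → R) : piM.Realize (asg x u w) ↔
      ¬ ((x 0 ≠ 0 ∨ x 1 ≠ 0) ∧ TwinMatrix (x 2) (x 0) (x 1) (u 0) (u 1) w ∧
        ((u 0 = x 2 * u 2 ∧ x 2 * w 0 ≠ u 1) ∨ (u 1 = x 2 * u 2 ∧ x 2 * w 0 ≠ u 0))) := by
  simp only [piM, Formula.realize_sup, Formula.realize_inf, Formula.realize_not,
    realize_twinF, realize_eqn, realize_mul, realize_zero]
  rfl

/-- **Equal degree is first-order definable in `K[t]`, for every infinite field `K`.**
There are quantifier-free formulas `σ`, `π` of the language of rings, with three free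
variables `x`, `y`, `z` and blocks of `m` and `n` further variables, such that for every
infinite field `K` and all `f`, `g` in `K[t]`, both `∃^m ∀^n σ` and `∀^m ∃^n π` hold in the
ring `K[t]` at `x = f`, `y = g`, `z = t` if and only if `deg f = deg g`. -/
theorem result : ∃ (m n : ℕ) (σ π : Language.ring.Formula ((Fin 3 ⊕ Fin m) ⊕ Fin n)),
    BoundedFormula.IsQF σ ∧ BoundedFormula.IsQF π ∧
    ∀ (K : Type u) [Field K] [Infinite K] [CompatibleRing K[X]] (f g : K[X]),
      (((σ.iAlls (Fin n)).iExs (Fin m)).Realize ![f, g, X] ↔ f.degree = g.degree) ∧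
      (((π.iExs (Fin n)).iAlls (Fin m)).Realize ![f, g, X] ↔ f.degree = g.degree) := by
  refine ⟨3, 11, sigmaM, piM, isQF_sigmaM, isQF_piM, ?_⟩
  intro K _ _ _ f g
  constructor
  · rw [Formula.realize_iExs, degree_eq_iff]
    simp only [Formula.realize_iAlls]
    have hR := fun (u : Fin 3 → K[X]) (w : Fin 11 → K[X]) =>
      realize_sigmaM (R := K[X]) ![f, g, X] u w
    simp only [asg] at hR
    simp only [hR]
    simp only [Matrix.cons_val_zero, Matrix.cons_val_one, Matrix.cons_val]
    constructor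
    · rintro ⟨u, hu⟩
      by_cases hz : f = 0 ∧ g = 0
      · exact Or.inl hz
      · right
        have hu' := fun w => (hu w).resolve_left hz
        refine ⟨(hu' 0).1, (hu' 0).2.1, u 0, u 1, (twin_iff _ _ _ _).mpr fun w => (hu' w).2.2.1,
          fun r => ?_, fun r => ?_⟩
        · exact (hu' (fun _ => r)).2.2.2.1
        · exact (hu' (fun _ => r)).2.2.2.2
    · rintro (hz | ⟨hf, hg, p, q, h, hp, hq⟩)
      · exact ⟨0, fun w => Or.inl hz⟩
      · exact ⟨![p, q, 0], fun w => Or.inr ⟨hf, hg, (twin_iff _ _ _ _).mp h w, hp _, hq _⟩⟩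
  · rw [Formula.realize_iAlls, ← not_iff_not, ← ne_eq, degree_ne_iff]
    simp only [Formula.realize_iExs]
    have hR := fun (u : Fin 3 → K[X]) (w : Fin 11 → K[X]) =>
      realize_piM (R := K[X]) ![f, g, X] u w
    simp only [asg] at hR
    simp only [hR]
    simp only [Matrix.cons_val_zero, Matrix.cons_val_one, Matrix.cons_val, not_forall,
      not_exists, not_not]
    constructor
    · rintro ⟨u, hu⟩
      refine ⟨(hu 0).1, u 0, u 1, u 2, (twin_iff _ _ _ _).mpr fun w => (hu w).2.1, ?_⟩
      have h2 := fun r : K[X] => (hu (fun _ => r)).2.2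
      by_cases hp : u 0 = X * u 2
      · by_cases hq : u 1 = X * u 2
        · exfalso
          rcases h2 (u 2) with h | h
          · exact h.2 hq.symm
          · exact h.2 hp.symm
        · left
          refine ⟨hp, fun r => ?_⟩
          rcases h2 r with h | h
          · exact h.2
          · exact absurd h.1 hq
      · right
        refine ⟨?_, fun r => ?_⟩
        · rcases h2 0 with h | h
          · exact absurd h.1 hp
          · exact h.1
        · rcases h2 r with h | h
          · exact absurd h.1 hp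
          · exact h.2
    · rintro ⟨hfg, p, q, s, h, hs⟩
      refine ⟨![p, q, s], fun w => ⟨hfg, (twin_iff _ _ _ _).mp h w, ?_⟩⟩
      rcases hs with ⟨h1, h2⟩ | ⟨h1, h2⟩
      · exact Or.inl ⟨h1, h2 _⟩
      · exact Or.inr ⟨h1, h2 _⟩

end Pool.Agent.Results.MP_d395f7_lc.DegreeDefinable
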